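import Pool.Agent.Helper42.SLR.Defs

/-! # Project SL, module RB, packet GDE: the exponential is well approximated. -/

namespace Pool.Agent.Helper34.SLR

open Pool.Agent.Helper51.SigLeo Pool.Agent.Helper51.SixExp Pool.Agent.Helper17.SL
open Pool.Agent.Helper42.SLR

universe v

theorem gd_factor (p : ℕ) [Fact p.Prime] {k : Type v} [NormedField k] [NormedAlgebra ℚ_[p] k]
    [IsUltrametricDist k] [CompleteSpace k] (N : ℕ) (B : k) (n : Fin N)
    (hB : ‖B‖ ≤ ((p : ℝ)⁻¹) ^ 2) : Gd (p : ℝ)⁻¹ (fun z : Fin N → k ↦ pexp (B * z n)) := by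
  have hr0 : (0 : ℝ) ≤ (p : ℝ)⁻¹ := p_inv_nonneg
  have hr1 : (p : ℝ)⁻¹ ≤ 1 := (p_inv_lt_one p).le
  intro K
  refine ⟨∑ m ∈ Finset.range K, MvPolynomial.monomial (Finsupp.single n m)
    (((m.factorial : k))⁻¹ * B ^ m), ?_, ?_⟩
  · intro τ
    rw [MvPolynomial.coeff_sum]
    apply IsUltrametricDist.norm_sum_le_of_forall_le_of_nonneg (pow_nonneg hr0 _)
    intro m _
    rw [MvPolynomial.coeff_monomial]
    split_ifs with h
    · have h1 : ∑ i, τ i = m := by
        rw [← h, Finset.sum_eq_single n]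
        · simp
        · intro i _ hi
          rw [Finsupp.single_eq_of_ne hi]
        · intro hn
          exact absurd (Finset.mem_univ n) hn
      rw [h1]
      exact (norm_term_le p B m).trans (pow_le_pow_left₀ (by positivity) (p_mul_norm_le p hB) m)
    · rw [norm_zero]
      exact pow_nonneg hr0 _
  · intro z hz
    have hx : ‖B * z n‖ ≤ ((p : ℝ)⁻¹) ^ 2 := by
      rw [norm_mul]
      calc ‖B‖ * ‖z n‖ ≤ ‖B‖ * 1 := mul_le_mul_of_nonneg_left (hz n) (norm_nonneg _)
        _ = ‖B‖ := mul_one _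
        _ ≤ _ := hB
    have he : MvPolynomial.eval z (∑ m ∈ Finset.range K, MvPolynomial.monomial (Finsupp.single n m)
        (((m.factorial : k))⁻¹ * B ^ m)) =
        ∑ m ∈ Finset.range K, ((m.factorial : k))⁻¹ * (B * z n) ^ m := by
      rw [map_sum]
      apply Finset.sum_congr rfl
      intro m _
      rw [MvPolynomial.eval_monomial, Finsupp.prod_single_index (h := fun n e ↦ z n ^ e)
        (pow_zero _), mul_pow, mul_assoc]
    have hs := (summable_norm_term p hx).of_norm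
    have h1 : pexp (B * z n) - ∑ m ∈ Finset.range K, ((m.factorial : k))⁻¹ * (B * z n) ^ m =
        ∑' m : ℕ, (((m + K).factorial : k))⁻¹ * (B * z n) ^ (m + K) := by
      have := hs.sum_add_tsum_nat_add K
      unfold pexp
      rw [← this]
      ring
    dsimp only
    rw [he, h1]
    refine IsUltrametricDist.norm_tsum_le_of_forall_le_of_nonneg (pow_nonneg hr0 _) (fun m ↦ ?_)
    refine (norm_term_le p _ (m + K)).trans ?_
    refine (pow_le_pow_left₀ (by positivity) (p_mul_norm_le p hx) _).trans ?_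
    exact pow_le_pow_of_le_one hr0 hr1 (Nat.le_add_left K m)

theorem gde (h : S_GDM.{v, 0}) : S_GDE.{v} := by
  intro p _ k _ _ _ _ N B hB
  have hr0 : (0 : ℝ) ≤ (p : ℝ)⁻¹ := p_inv_nonneg
  have hr1 : (p : ℝ)⁻¹ ≤ 1 := (p_inv_lt_one p).le
  have hprod := (h k N (p : ℝ)⁻¹ hr0 hr1).2.2.2.1 (Fin N) Finset.univ
    (fun n z ↦ pexp (B n * z n)) (fun n _ ↦ gd_factor p N (B n) n (hB n))
  intro K
  obtain ⟨P, hP1, hP2⟩ := hprod K
  refine ⟨P, hP1, fun z hz ↦ ?_⟩
  have h1 : pexp (∑ n, B n * z n) = ∏ n, pexp (B n * z n) := by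
    apply pexp_sum (p := p)
    intro n _
    rw [norm_mul]
    calc ‖B n‖ * ‖z n‖ ≤ ‖B n‖ * 1 := mul_le_mul_of_nonneg_left (hz n) (norm_nonneg _)
      _ = ‖B n‖ := mul_one _
      _ ≤ _ := hB n
  dsimp only
  rw [h1]
  exact hP2 z hz

end Pool.Agent.Helper34.SLR
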